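import Mathlib
import Pool.Agent.H668.Eq.Main

set_option autoImplicit false

/-!
The `Δ⁰₂`-categorical computable equivalence structures (MP_5709ea_lc, Q1).

Let `A` be a computable equivalence structure and let `N k` be the number of its classes with
exactly `k` elements. Then `A` is `Δ⁰₂`-categorical if and only if `A` has only finitely many
infinite classes, or the multiset in which `k` has multiplicity `N k` has the following property:
for every computable array `g` of nondecreasing functions whose finite limits form a sub-multiset
of it, the finite limits of `g` are bounded by a `Δ⁰₂` function of the index; equivalently, for
every such array the set of the indices at which the limit is finite is `Δ⁰₂`.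

The definitions are in `Pool/Agent/H668/Eq/Defs.lean`:
* `CES`: computable equivalence structures (the universe is a computable set of natural numbers,
  the relation is computable and is an equivalence relation on the universe);
* `A.classes k`, `A.infClasses`: the set of the classes with exactly `k` elements, the set of the
  infinite classes;
* `Iso A B f`: `f` restricts to an isomorphism of `A` onto `B`;
* `Delta2 f`: `f` is Turing reducible to the halting problem `halt`;
* `Categorical A`: every computable copy of `A` is isomorphic to `A` by a function computable in
  the halting problem;
* `LimIs u k`: the sequence `u` is eventually equal to `k`;
* `IsArray N g`: `g` is computable, each `g i` is nondecreasing, and for every `k` at most `N k`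
  of the `g i` have limit `k`;
* `ArrayBounded N`, `ArrayDecided N`: the two properties above.
-/

namespace Pool.Agent.Results.MP_5709ea_lc.ArrayCharacterisation

open Pool.Agent.H668.Eqv

theorem result (A : CES) :
    (Categorical A ↔ A.infClasses.Finite ∨ ArrayBounded fun k => (A.classes k).encard) ∧
    (Categorical A ↔ A.infClasses.Finite ∨ ArrayDecided fun k => (A.classes k).encard) :=
  main A

end Pool.Agent.Results.MP_5709ea_lc.ArrayCharacterisation
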